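import Mathlib
import Pool.Agent.Results.MP_af9f8b_co.ChromaticOrder

set_option autoImplicit false

namespace Pool.Agent.Y332.TG

open Pool.Agent.Results.MP_af9f8b_co.ChromaticOrder (abstract_color q q_mono q_nest q_shift
  exists_level)

/-- Coordinates on a normed space, compared with the norm. -/
structure Coord (E : Type) [NormedAddCommGroup E] [NormedSpace ℝ E] (d K : ℕ) where
  co : Fin d → (E →ₗ[ℝ] ℝ)
  hK : 0 < K
  le : ∀ i x, |co i x| ≤ ‖x‖
  lt : ∀ (x : E) (ρ : ℝ), 0 < ρ → (∀ i, |co i x| < ρ) → ‖x‖ < K * ρ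

theorem exists_coord (E : Type) [NormedAddCommGroup E] [NormedSpace ℝ E] [FiniteDimensional ℝ E] :
    ∃ (d K : ℕ), Nonempty (Coord E d K) := by
  set d := Module.finrank ℝ E with hd
  let b : Module.Basis (Fin d) ℝ E := Module.finBasis ℝ E
  let φ : Fin d → (E →L[ℝ] ℝ) := fun i => LinearMap.toContinuousLinearMap (b.coord i)
  set M : ℝ := 1 + ∑ i, ‖φ i‖ with hM
  have hM0 : 0 < M := by
    have : 0 ≤ ∑ i, ‖φ i‖ := Finset.sum_nonneg fun i _ => norm_nonneg _
    linarith
  have hφM : ∀ i, ‖φ i‖ ≤ M := by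
    intro i
    have := Finset.single_le_sum (f := fun i => ‖φ i‖) (fun i _ => norm_nonneg _)
      (Finset.mem_univ i)
    linarith
  set B : ℝ := ∑ i, ‖b i‖ with hB
  have hB0 : 0 ≤ B := Finset.sum_nonneg fun i _ => norm_nonneg _
  refine ⟨d, ⌈M * B⌉₊ + 1, ⟨fun i => M⁻¹ • b.coord i, Nat.succ_pos _, ?_, ?_⟩⟩
  · intro i x
    have h1 : ‖φ i x‖ ≤ M * ‖x‖ :=
      ((φ i).le_opNorm x).trans (mul_le_mul_of_nonneg_right (hφM i) (norm_nonneg _))
    have h2 : φ i x = b.coord i x := rfl
    rw [LinearMap.smul_apply, smul_eq_mul, abs_mul, abs_of_pos (inv_pos.2 hM0),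
      inv_mul_le_iff₀ hM0, ← h2]
    exact h1
  · intro x ρ hρ h
    have h1 : ∀ i, |b.coord i x| ≤ M * ρ := by
      intro i
      have h2 := (h i).le
      rw [LinearMap.smul_apply, smul_eq_mul, abs_mul, abs_of_pos (inv_pos.2 hM0),
        inv_mul_le_iff₀ hM0] at h2
      exact h2
    have h2 : ‖x‖ ≤ M * ρ * B := by
      conv_lhs => rw [← b.sum_repr x]
      refine (norm_sum_le _ _).trans ?_
      rw [hB, Finset.mul_sum]
      apply Finset.sum_le_sum
      intro i _
      rw [norm_smul]
      exact mul_le_mul_of_nonneg_right (h1 i) (norm_nonneg _)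
    have h3 : M * B ≤ ⌈M * B⌉₊ := Nat.le_ceil _
    push_cast
    nlinarith

section sep

variable {E : Type} [NormedAddCommGroup E] [NormedSpace ℝ E] {d K : ℕ} (C : Coord E d K)
variable {s : ℝ} {α : Fin d → ℕ} {r : E → ℝ} {k : E → ℕ} {S₀ : Finset E}

/-- The cell of a point at level `l`. -/
noncomputable def cell (s : ℝ) (α : Fin d → ℕ) (l : ℕ) (p : E) : Fin d → ℤ :=
  fun i => q s (α i) l (C.co i p)

/-- The hypotheses on a family of balls that fit in cells of the grid of type `α`. -/
structure Fit (s : ℝ) (α : Fin d → ℕ) (r : E → ℝ) (k : E → ℕ) (S₀ : Finset E) : Prop where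
  hs : 0 < s
  hr : ∀ v ∈ S₀, 0 < r v
  hk : ∀ v ∈ S₀, s * 3 ^ (k v) ≤ 12 * r v
  hα : ∀ i, ∀ v ∈ S₀, q s (α i) (k v) (C.co i v - r v) = q s (α i) (k v) (C.co i v + r v)

variable {C}

lemma Coord.dist_le (C : Coord E d K) (i : Fin d) (p v : E) :
    |C.co i p - C.co i v| ≤ dist p v := by
  rw [dist_eq_norm, ← map_sub]
  exact C.le i _

theorem Fit.cell_eq (h : Fit C s α r k S₀) {v : E} (hv : v ∈ S₀) {l : ℕ} (hl : k v ≤ l) {p : E}
    (hp : dist p v ≤ r v) : cell C s α l p = cell C s α l v := by
  funext i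
  have h0 := abs_le.1 ((C.dist_le i p v).trans hp)
  have hr := h.hr v hv
  have e0 : q s (α i) (k v) (C.co i p) = q s (α i) (k v) (C.co i v) := by
    have a1 := q_mono h.hs (α i) (k v) (show C.co i v - r v ≤ C.co i p by linarith)
    have a2 := q_mono h.hs (α i) (k v) (show C.co i p ≤ C.co i v + r v by linarith)
    have a3 := q_mono h.hs (α i) (k v) (show C.co i v - r v ≤ C.co i v by linarith)
    have a4 := q_mono h.hs (α i) (k v) (show C.co i v ≤ C.co i v + r v by linarith)
    have a5 := h.hα i v hv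
    omega
  simp only [cell]
  exact q_nest h.hs (α i) hl e0

/-- the large balls that meet one cell are coloured with `(14 K) ^ d` colours -/
theorem big_color (C : Coord E d K) {ρ : ℝ} (hρ : 0 < ρ) (m : Fin d → ℤ) (α : Fin d → ℕ)
    (T : Finset E) (hT : ∀ v ∈ T, ρ ≤ r v)
    (hm : ∀ v ∈ T, ∃ p : E, dist p v ≤ r v ∧
      ∀ i, ⌊C.co i p / (12 * ρ) + (α i : ℝ) / 2⌋ = m i) :
    ∃ c : E → ℕ, (∀ v ∈ T, c v < (14 * K) ^ d) ∧
      ∀ u ∈ T, ∀ v ∈ T, dist u v = r u + r v → c u ≠ c v := by
  classical
  have hK := C.hK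
  have hK' : (0 : ℝ) < K := by exact_mod_cast hK
  have hex : ∀ v ∈ T, ∃ w : E, dist v w ≤ r v - ρ ∧
      ∀ i, 12 * (m i : ℝ) - 6 * α i - 1 ≤ C.co i w / ρ ∧
        C.co i w / ρ < 12 * (m i : ℝ) - 6 * α i + 13 := by
    intro v hv
    obtain ⟨p, hp, hpi⟩ := hm v hv
    have hrv := hT v hv
    have hr0 : 0 < r v := lt_of_lt_of_le hρ hrv
    have hθ1 : ρ / r v ≤ 1 := by rw [div_le_one hr0]; exact hrv
    have hθ0 : 0 < ρ / r v := by positivity
    set w : E := p + (ρ / r v) • (v - p) with hw
    have hvp : ‖v - p‖ ≤ r v := by rw [← dist_eq_norm, dist_comm]; exact hp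
    have hd1 : dist v w ≤ r v - ρ := by
      have : v - w = (1 - ρ / r v) • (v - p) := by
        rw [hw]; module
      rw [dist_eq_norm, this, norm_smul, Real.norm_of_nonneg (by linarith)]
      calc (1 - ρ / r v) * ‖v - p‖ ≤ (1 - ρ / r v) * r v := by
            gcongr
        _ = r v - ρ := by field_simp
    have hd2 : dist w p ≤ ρ := by
      have : w - p = (ρ / r v) • (v - p) := by
        rw [hw]; module
      rw [dist_eq_norm, this, norm_smul, Real.norm_of_nonneg hθ0.le]
      calc ρ / r v * ‖v - p‖ ≤ ρ / r v * r v := by gcongr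
        _ = ρ := by field_simp
    refine ⟨w, hd1, ?_⟩
    intro i
    have hz := hpi i
    rw [Int.floor_eq_iff] at hz
    obtain ⟨hz1, hz2⟩ := hz
    have hc := abs_le.1 ((C.dist_le i w p).trans hd2)
    have e1 : C.co i p / (12 * ρ) = (C.co i p / ρ) / 12 := by rw [div_div, mul_comm]
    rw [e1] at hz1 hz2
    have e2 : C.co i w / ρ = C.co i p / ρ + (C.co i w - C.co i p) / ρ := by
      rw [← add_div]; congr 1; ring
    have e3 : -1 ≤ (C.co i w - C.co i p) / ρ := by rw [le_div_iff₀ hρ]; linarith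
    have e4 : (C.co i w - C.co i p) / ρ ≤ 1 := by rw [div_le_iff₀ hρ]; linarith
    rw [e2]
    constructor <;> linarith
  choose! w hw1 hw2 using hex
  have hNZ : NeZero (14 * K) := ⟨by omega⟩
  set fl : E → Fin d → ℤ := fun v i => ⌊(K : ℝ) * (C.co i (w v) / ρ)⌋ with hfl
  have hwin : ∀ v ∈ T, ∀ i, (K : ℤ) * (12 * m i - 6 * α i - 1) ≤ fl v i ∧
      fl v i < (K : ℤ) * (12 * m i - 6 * α i - 1) + 14 * K := by
    intro v hv i
    obtain ⟨h1, h2⟩ := hw2 v hv i
    constructor
    · rw [hfl, Int.le_floor]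
      push_cast
      exact mul_le_mul_of_nonneg_left h1 hK'.le
    · have h3 : (K : ℤ) * (12 * m i - 6 * α i - 1) + 14 * K =
          (K : ℤ) * (12 * m i - 6 * α i + 13) := by ring
      rw [h3, hfl, Int.floor_lt]
      push_cast
      exact mul_lt_mul_of_pos_left h2 hK'
  let g : E → (Fin d → ZMod (14 * K)) := fun v i => (fl v i : ZMod (14 * K))
  have hcard : Fintype.card (Fin d → ZMod (14 * K)) = (14 * K) ^ d := by
    rw [Fintype.card_fun, ZMod.card, Fintype.card_fin]
  refine ⟨fun v => (Fintype.equivFin (Fin d → ZMod (14 * K)) (g v)).val, ?_, ?_⟩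
  · intro v _
    rw [← hcard]
    exact (Fintype.equivFin (Fin d → ZMod (14 * K)) (g v)).isLt
  · intro u hu v hv hadj heq
    have hg : g u = g v := (Fintype.equivFin _).injective (Fin.ext heq)
    have hfe : ∀ i, fl u i = fl v i := by
      intro i
      have h1 : (fl u i : ZMod (14 * K)) = (fl v i : ZMod (14 * K)) := congrFun hg i
      rw [ZMod.intCast_eq_intCast_iff_dvd_sub] at h1
      obtain ⟨c, hc⟩ := h1
      obtain ⟨a1, a2⟩ := hwin u hu i
      obtain ⟨b1, b2⟩ := hwin v hv i
      push_cast at hc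
      have hK1 : (0 : ℤ) < K := by exact_mod_cast hK
      have hc0 : c = 0 := by
        by_contra hne
        rcases lt_or_gt_of_ne hne with h | h
        · have : 14 * (K : ℤ) * c ≤ 14 * (K : ℤ) * (-1) :=
            mul_le_mul_of_nonneg_left (by omega) (by positivity)
          linarith
        · have : 14 * (K : ℤ) * 1 ≤ 14 * (K : ℤ) * c :=
            mul_le_mul_of_nonneg_left (by omega) (by positivity)
          linarith
      rw [hc0, mul_zero] at hc
      linarith
    have hco : ∀ i, |C.co i (w u - w v)| < ρ / K := by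
      intro i
      have h1 := Int.abs_sub_lt_one_of_floor_eq_floor (hfe i)
      rw [← mul_sub, ← sub_div, abs_mul, abs_div, abs_of_pos hρ, abs_of_pos hK'] at h1
      rw [map_sub, lt_div_iff₀ hK']
      have h2 : |C.co i (w u) - C.co i (w v)| * K =
          (K * (|C.co i (w u) - C.co i (w v)| / ρ)) * ρ := by field_simp
      rw [h2]
      calc _ < 1 * ρ := mul_lt_mul_of_pos_right h1 hρ
        _ = ρ := one_mul _
    have hd := C.lt (w u - w v) (ρ / K) (by positivity) hco
    rw [mul_div_cancel₀ _ hK'.ne', ← dist_eq_norm] at hd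
    have h1 := hw1 u hu
    have h2 := hw1 v hv
    have h3 : dist u v ≤ dist u (w u) + dist (w u) (w v) + dist (w v) v := dist_triangle4 _ _ _ _
    rw [dist_comm (w v) v] at h3
    linarith

/-- the common point of two tangent balls -/
theorem tangent_point {u v : E} {x y : ℝ} (hx : 0 < x) (hy : 0 < y) (h : dist u v = x + y) :
    ∃ p : E, dist p u ≤ x ∧ dist p v ≤ y := by
  refine ⟨AffineMap.lineMap u v (x / (x + y)), ?_, ?_⟩
  · rw [dist_lineMap_left, h, Real.norm_of_nonneg (by positivity)]
    apply le_of_eq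
    field_simp
  · rw [dist_lineMap_right, h]
    have : 1 - x / (x + y) = y / (x + y) := by field_simp; ring
    rw [this, Real.norm_of_nonneg (by positivity)]
    apply le_of_eq
    field_simp

theorem Fit.sep (h : Fit C s α r k S₀) (S : Finset E) (hS : S ⊆ S₀) :
    ∃ (X : E → Prop) (cX : E → ℕ) (L : Type) (f : E → L),
      (∀ v ∈ S, X v → cX v < (14 * K) ^ d) ∧
      (∀ u ∈ S, ∀ v ∈ S, X u → X v → dist u v = r u + r v → cX u ≠ cX v) ∧
      (∀ u ∈ S, ∀ v ∈ S, ¬ X u → ¬ X v → dist u v = r u + r v → f u = f v) ∧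
      (∀ i : L, ∀ P : Finset E, (∀ v ∈ P, v ∈ S ∧ ¬ X v ∧ f v = i) → 2 * P.card ≤ S.card) := by
  classical
  have hM : 0 < (14 * K) ^ d := pow_pos (Nat.mul_pos (by norm_num) C.hK) _
  let W : ℕ → (Fin d → ℤ) → Finset E := fun l Q => S.filter (fun v => k v ≤ l ∧ cell C s α l v = Q)
  by_cases hex : ∃ l, ∃ Q, S.card < 2 * (W l Q).card
  · -- take the least level of a heavy cell
    obtain ⟨Q, hQ⟩ := Nat.find_spec hex
    set l := Nat.find hex with hl
    have hmin : ∀ l' < l, ∀ Q', 2 * (W l' Q').card ≤ S.card := by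
      intro l' hl' Q'
      by_contra hcon
      exact Nat.find_min hex hl' ⟨Q', not_le.1 hcon⟩
    let X : E → Prop := fun v => l ≤ k v ∧ ∃ p : E, dist p v ≤ r v ∧ cell C s α l p = Q
    obtain ⟨cX, hcX1, hcX2⟩ := big_color (r := r) C (ρ := s * 3 ^ l / 12)
      (by have := h.hs; positivity) Q α
      (S.filter X) (by
        intro v hv
        rw [Finset.mem_filter] at hv
        have h1 := h.hk v (hS hv.1)
        have h2 : s * 3 ^ l ≤ s * 3 ^ (k v) := by
          have := h.hs
          gcongr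
          · norm_num
          · exact hv.2.1
        linarith) (by
        intro v hv
        rw [Finset.mem_filter] at hv
        obtain ⟨hv1, hv2, p, hp, hpQ⟩ := hv
        refine ⟨p, hp, fun i => ?_⟩
        rw [show 12 * (s * 3 ^ l / 12) = s * 3 ^ l by ring, ← hpQ]; rfl)
    refine ⟨X, cX, Option (Fin d → ℤ), fun v => if cell C s α l v = Q then
        some (cell C s α (l - 1) v) else none,
      fun v hv hX => hcX1 v (Finset.mem_filter.2 ⟨hv, hX⟩),
      fun u hu v hv hXu hXv => hcX2 u (Finset.mem_filter.2 ⟨hu, hXu⟩) v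
        (Finset.mem_filter.2 ⟨hv, hXv⟩), ?_, ?_⟩
    · intro u hu v hv hXu hXv hadj
      obtain ⟨p, hpu, hpv⟩ := tangent_point (h.hr u (hS hu)) (h.hr v (hS hv)) hadj
      have hY : ∀ v ∈ S, ¬ X v → cell C s α l v = Q → k v ≤ l - 1 ∧ k v ≤ l := by
        intro v hv hXv hQv
        have : k v < l := by
          by_contra hcon
          exact hXv ⟨not_lt.1 hcon, v, by rw [dist_self]; exact (h.hr v (hS hv)).le, hQv⟩
        omega
      have hZ : ∀ v ∈ S, ¬ X v → cell C s α l v ≠ Q → dist p v ≤ r v → cell C s α l p ≠ Q := by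
        intro v hv hXv hQv hp hpQ
        by_cases hkv : l ≤ k v
        · exact hXv ⟨hkv, p, hp, hpQ⟩
        · rw [h.cell_eq (hS hv) (by omega) hp] at hpQ
          exact hQv hpQ
      by_cases hQu : cell C s α l u = Q <;> by_cases hQv : cell C s α l v = Q
      · simp only [hQu, hQv, if_true]
        have h1 := h.cell_eq (hS hu) (hY u hu hXu hQu).1 hpu
        have h2 := h.cell_eq (hS hv) (hY v hv hXv hQv).1 hpv
        rw [← h1, ← h2]
      · exfalso
        refine hZ v hv hXv hQv hpv ?_
        rw [h.cell_eq (hS hu) (hY u hu hXu hQu).2 hpu]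
        exact hQu
      · exfalso
        refine hZ u hu hXu hQu hpu ?_
        rw [h.cell_eq (hS hv) (hY v hv hXv hQv).2 hpv]
        exact hQv
      · simp only [hQu, hQv, if_false]
    · intro i P hP
      rcases i with _ | Q'
      · -- balls away from the cell
        have hdis : Disjoint P (W l Q) := by
          rw [Finset.disjoint_left]
          intro v hv hvW
          obtain ⟨-, -, hf⟩ := hP v hv
          have hvQ : cell C s α l v = Q := (Finset.mem_filter.1 hvW).2.2
          simp [hvQ] at hf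
        have hsub : P ∪ W l Q ⊆ S := by
          intro v hv
          rcases Finset.mem_union.1 hv with hv | hv
          · exact (hP v hv).1
          · exact (Finset.mem_filter.1 hv).1
        have := Finset.card_le_card hsub
        rw [Finset.card_union_of_disjoint hdis] at this
        omega
      · -- balls inside a child cell
        rcases Nat.eq_zero_or_pos l with hl0 | hl0
        · have hP0 : P = ∅ := by
            rw [Finset.eq_empty_iff_forall_notMem]
            intro v hv
            obtain ⟨hvS, hXv, hf⟩ := hP v hv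
            have hvQ : cell C s α l v = Q := by
              by_contra hcon
              simp [hcon] at hf
            exact hXv ⟨by omega, v, by rw [dist_self]; exact (h.hr v (hS hvS)).le, hvQ⟩
          rw [hP0]; simp
        · have hsub : P ⊆ W (l - 1) Q' := by
            intro v hv
            obtain ⟨hvS, hXv, hf⟩ := hP v hv
            have hvQ : cell C s α l v = Q := by
              by_contra hcon
              simp [hcon] at hf
            simp only [hvQ, if_true, Option.some.injEq] at hf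
            have : k v < l := by
              by_contra hcon
              exact hXv ⟨not_lt.1 hcon, v, by rw [dist_self]; exact (h.hr v (hS hvS)).le, hvQ⟩
            exact Finset.mem_filter.2 ⟨hvS, by omega, hf⟩
          have h1 := Finset.card_le_card hsub
          have h2 := hmin (l - 1) (by omega) Q'
          omega
  · push Not at hex
    refine ⟨fun _ => False, fun _ => 0, Fin d → ℤ, fun v => cell C s α (S.sup k) v, by simp,
      by simp, ?_, ?_⟩
    · intro u hu v hv _ _ hadj
      obtain ⟨p, hpu, hpv⟩ := tangent_point (h.hr u (hS hu)) (h.hr v (hS hv)) hadj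
      simp only
      rw [← h.cell_eq (hS hu) (Finset.le_sup hu) hpu, ← h.cell_eq (hS hv) (Finset.le_sup hv) hpv]
    · intro i P hP
      have hsub : P ⊆ W (S.sup k) i := by
        intro v hv
        obtain ⟨hvS, -, hf⟩ := hP v hv
        exact Finset.mem_filter.2 ⟨hvS, Finset.le_sup hvS, hf⟩
      have h1 := Finset.card_le_card hsub
      have h2 := hex (S.sup k) i
      omega

end sep

section Graph

variable {E : Type} [NormedAddCommGroup E] [NormedSpace ℝ E]

/-- The tangent graph of the balls with centres the points of `A` and radii `r a`: two distinct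
centres are adjacent when the balls are externally tangent. -/
def tangentGraph (A : Finset E) (r : E → ℝ) : SimpleGraph A where
  Adj a b := a ≠ b ∧ dist (a : E) (b : E) = r a + r b
  symm := ⟨fun a b h => ⟨h.1.symm, by rw [dist_comm, h.2, add_comm]⟩⟩
  loopless := ⟨fun a h => h.1 rfl⟩

theorem upper {d K : ℕ} (C : Coord E d K) {A : Finset E} {r : E → ℝ} (hr : ∀ a ∈ A, 0 < r a)
    {t : ℕ} (ht : A.card < 2 ^ t) :
    (tangentGraph A r).Colorable (2 ^ d * ((14 * K) ^ d * t)) := by
  classical
  rcases A.eq_empty_or_nonempty with hA | hne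
  · subst hA
    exact ⟨SimpleGraph.Coloring.mk (fun v => absurd v.2 (Finset.notMem_empty _))
      (fun {v} => absurd v.2 (Finset.notMem_empty _))⟩
  obtain ⟨a0, ha0, hmin⟩ := A.exists_min_image r hne
  set s := r a0 with hs'
  have hs : 0 < s := hr a0 ha0
  have hlev : ∀ a ∈ A, ∃ k : ℕ, 4 * r a < s * 3 ^ k ∧ s * 3 ^ k ≤ 12 * r a := fun a ha =>
    exists_level hs (by have := hmin a ha; have := hr a ha; linarith)
  choose! k hk1 hk2 using hlev
  have hα : ∀ a ∈ A, ∃ α : Fin d → Fin 2, ∀ i,
      q s (α i) (k a) (C.co i a - r a) = q s (α i) (k a) (C.co i a + r a) := by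
    intro a ha
    have h1 : ∀ i, ∃ α : Fin 2, q s α (k a) (C.co i a - r a) = q s α (k a) (C.co i a + r a) := by
      intro i
      obtain ⟨α, h2, h3⟩ := q_shift hs (hr a ha) (hk1 a ha) (C.co i a)
      exact ⟨⟨α, h2⟩, h3⟩
    choose α hα using h1
    exact ⟨α, hα⟩
  choose! α hα using hα
  have hfam : ∀ β : Fin d → Fin 2, ∃ c : E → ℕ,
      (∀ v ∈ A.filter (fun v => α v = β), c v < (14 * K) ^ d * t) ∧
      ∀ u ∈ A.filter (fun v => α v = β), ∀ v ∈ A.filter (fun v => α v = β),
        dist u v = r u + r v → c u ≠ c v := by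
    intro β
    have hfit : Fit C s (fun i => (β i : ℕ)) r k (A.filter (fun v => α v = β)) := by
      refine ⟨hs, ?_, ?_, ?_⟩
      · intro v hv; exact hr v (Finset.mem_filter.1 hv).1
      · intro v hv; exact hk2 v (Finset.mem_filter.1 hv).1
      · intro i v hv
        obtain ⟨h1, h2⟩ := Finset.mem_filter.1 hv
        rw [← h2]; exact hα v h1 i
    exact abstract_color (fun u v => dist u v = r u + r v) _ _ (fun S hS => hfit.sep S hS) t _
      (Finset.Subset.refl _) (lt_of_le_of_lt (Finset.card_filter_le _ _) ht)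
  choose c hc1 hc2 using hfam
  have hmem : ∀ v : A, (v : E) ∈ A.filter (fun w => α w = α v) := fun v =>
    Finset.mem_filter.2 ⟨v.2, rfl⟩
  let col : A → (Fin d → Fin 2) × Fin ((14 * K) ^ d * t) :=
    fun v => (α v, ⟨c (α v) v, hc1 (α v) v (hmem v)⟩)
  have hcol : ∀ {u v : A}, (tangentGraph A r).Adj u v → col u ≠ col v := by
    intro u v hadj heq
    have h1 : α u = α v := (Prod.mk.inj heq).1
    have h2 : c (α u) u = c (α v) v := congrArg Fin.val (Prod.mk.inj heq).2
    rw [h1] at h2
    exact hc2 (α v) u (Finset.mem_filter.2 ⟨u.2, h1⟩) v (hmem v) hadj.2 h2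
  have h := (SimpleGraph.Coloring.mk col hcol).colorable
  have hcard : Fintype.card ((Fin d → Fin 2) × Fin ((14 * K) ^ d * t)) =
      2 ^ d * ((14 * K) ^ d * t) := by
    rw [Fintype.card_prod, Fintype.card_fun, Fintype.card_fin, Fintype.card_fin, Fintype.card_fin]
  rwa [hcard] at h

end Graph

end Pool.Agent.Y332.TG
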