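import Mathlib
import Pool.Agent.Y332.TG.Upper

set_option autoImplicit false

namespace Pool.Agent.Y332.TG

section Lower

variable {E : Type} [NormedAddCommGroup E] [NormedSpace ℝ E] (e : E)

/-- The centre of the ball with diameter from `3 ^ i` to `3 ^ j` on the axis through `e`. -/
noncomputable def ctr (p : ℕ × ℕ) : E := (((3 : ℝ) ^ p.1 + 3 ^ p.2) / 2) • e

theorem ctr_inj (he0 : e ≠ 0) {p p' : ℕ × ℕ} (h : p.1 < p.2) (h' : p'.1 < p'.2)
    (he : ctr e p = ctr e p') : p = p' := by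
  obtain ⟨i, j⟩ := p
  obtain ⟨k, l⟩ := p'
  simp only at h h'
  have h0 : ((3 : ℝ) ^ i + 3 ^ j) / 2 = (3 ^ k + 3 ^ l) / 2 := smul_left_injective ℝ he0 he
  have h1 : 3 ^ i + 3 ^ j = 3 ^ k + 3 ^ l := by
    have : ((3 : ℝ) ^ i + 3 ^ j) = (3 ^ k + 3 ^ l) := by linarith
    exact_mod_cast this
  have a1 : 3 ^ i < 3 ^ j := Nat.pow_lt_pow_right (by norm_num) h
  have a2 : 3 ^ k < 3 ^ l := Nat.pow_lt_pow_right (by norm_num) h'
  have a3 : 0 < 3 ^ i := by positivity
  have a4 : 0 < 3 ^ k := by positivity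
  have hjl : j = l := by
    rcases lt_trichotomy j l with hlt | heq | hlt
    · have : 3 ^ (j + 1) ≤ 3 ^ l := Nat.pow_le_pow_right (by norm_num) hlt
      rw [pow_succ] at this
      omega
    · exact heq
    · have : 3 ^ (l + 1) ≤ 3 ^ j := Nat.pow_le_pow_right (by norm_num) hlt
      rw [pow_succ] at this
      omega
  subst hjl
  have hik : 3 ^ i = 3 ^ k := by omega
  have := Nat.pow_right_injective (le_refl 2 |>.trans (by norm_num)) hik
  rw [this]

open Classical in
/-- The radii in the construction. -/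
noncomputable def rad (a : E) : ℝ :=
  if h : ∃ p : ℕ × ℕ, p.1 < p.2 ∧ ctr e p = a then ((3 : ℝ) ^ h.choose.2 - 3 ^ h.choose.1) / 2 else 1

theorem rad_ctr (he0 : e ≠ 0) {p : ℕ × ℕ} (hp : p.1 < p.2) :
    rad e (ctr e p) = ((3 : ℝ) ^ p.2 - 3 ^ p.1) / 2 := by
  have h : ∃ p' : ℕ × ℕ, p'.1 < p'.2 ∧ ctr e p' = ctr e p := ⟨p, hp, rfl⟩
  rw [rad, dif_pos h]
  have := ctr_inj e he0 h.choose_spec.1 hp h.choose_spec.2
  rw [this]

theorem rad_pos (a : E) : 0 < rad e a := by
  rw [rad]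
  split_ifs with h
  · have h1 := h.choose_spec.1
    have h2 : (3 : ℝ) ^ h.choose.1 < 3 ^ h.choose.2 := pow_lt_pow_right₀ (by norm_num) h1
    linarith
  · norm_num

theorem lower (he : ‖e‖ = 1) (n : ℕ) : ∃ A : Finset E, A.card = n ∧
    ∀ K, (tangentGraph A (rad e)).Colorable K → Nat.sqrt n + 1 ≤ 2 ^ K := by
  classical
  have he0 : e ≠ 0 := by
    rintro rfl
    simp at he
  have hnt : Nontrivial E := ⟨⟨e, 0, he0⟩⟩
  have hinf : Infinite E := Module.Free.infinite ℝ E
  set m := Nat.sqrt n + 1 with hm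
  let I : Finset (ℕ × ℕ) := ((Finset.range m).sigma (fun j => Finset.range j)).image (fun x => (x.2, x.1))
  have hI : ∀ i j : ℕ, i < j → j < m → (i, j) ∈ I := by
    intro i j h1 h2
    exact Finset.mem_image.2 ⟨⟨j, i⟩, Finset.mem_sigma.2 ⟨Finset.mem_range.2 h2, Finset.mem_range.2 h1⟩, rfl⟩
  have hcard : (I.image (ctr e)).card ≤ n := by
    have h1 : (I.image (ctr e)).card ≤ ∑ j ∈ Finset.range m, j := by
      refine Finset.card_image_le.trans (Finset.card_image_le.trans ?_)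
      rw [Finset.card_sigma]
      simp
    have h2 := Finset.sum_range_id_mul_two m
    have h3 : Nat.sqrt n * Nat.sqrt n ≤ n := Nat.sqrt_le n
    have h4 : m * (m - 1) ≤ 2 * n := by
      rw [hm, Nat.add_sub_cancel]
      have : Nat.sqrt n ≤ Nat.sqrt n * Nat.sqrt n := Nat.le_mul_self _
      nlinarith
    omega
  obtain ⟨A, hsub, hA⟩ := Infinite.exists_superset_card_eq (I.image (ctr e)) n hcard
  refine ⟨A, hA, ?_⟩
  rintro K ⟨C⟩
  have hmem : ∀ i j : ℕ, i < j → j < m → ctr e (i, j) ∈ A := fun i j h1 h2 =>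
    hsub (Finset.mem_image_of_mem _ (hI i j h1 h2))
  let F : ℕ → Finset (Fin K) := fun i => Finset.univ.filter
    (fun c => ∃ j, i < j ∧ j < m ∧ ∃ h : ctr e (i, j) ∈ A, C ⟨ctr e (i, j), h⟩ = c)
  have hadj : ∀ i j l : ℕ, i < j → j < l → ∀ (h1 : ctr e (i, j) ∈ A) (h2 : ctr e (j, l) ∈ A),
      (tangentGraph A (rad e)).Adj ⟨ctr e (i, j), h1⟩ ⟨ctr e (j, l), h2⟩ := by
    intro i j l hij hjl h1 h2
    refine ⟨?_, ?_⟩
    · intro heq
      have := ctr_inj e he0 (p := (i, j)) (p' := (j, l)) hij hjl (congrArg Subtype.val heq)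
      simp only [Prod.mk.injEq] at this
      omega
    · simp only
      rw [rad_ctr e he0 (p := (i, j)) hij, rad_ctr e he0 (p := (j, l)) hjl, dist_eq_norm]
      have e1 : (3 : ℝ) ^ i < 3 ^ j := pow_lt_pow_right₀ (by norm_num) hij
      have e2 : (3 : ℝ) ^ j < 3 ^ l := pow_lt_pow_right₀ (by norm_num) hjl
      have e3 : ctr e (i, j) - ctr e (j, l) = (-(((3 : ℝ) ^ l - 3 ^ i) / 2)) • e := by
        simp only [ctr]
        module
      rw [e3, norm_smul, he, mul_one, Real.norm_eq_abs, abs_neg, abs_of_pos (by linarith)]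
      ring
  have hinj : ∀ i j : ℕ, i < j → j < m → F i ≠ F j := by
    intro i j hij hj heq
    have h1 : C ⟨ctr e (i, j), hmem i j hij hj⟩ ∈ F i :=
      Finset.mem_filter.2 ⟨Finset.mem_univ _, j, hij, hj, hmem i j hij hj, rfl⟩
    rw [heq] at h1
    obtain ⟨-, l, hjl, hl, h2, h3⟩ := Finset.mem_filter.1 h1
    exact C.valid (hadj i j l hij hjl (hmem i j hij hj) h2) h3.symm
  have hcard2 : m ≤ (Finset.univ : Finset (Finset (Fin K))).card := by
    calc m = (Finset.range m).card := (Finset.card_range m).symm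
      _ ≤ _ := Finset.card_le_card_of_injOn F (fun _ _ => Finset.mem_coe.2 (Finset.mem_univ _)) (by
        intro i hi j hj he
        rw [Finset.mem_coe, Finset.mem_range] at hi hj
        rcases lt_trichotomy i j with h | h | h
        · exact absurd he (hinj i j h hj)
        · exact h
        · exact absurd he.symm (hinj j i h hi))
  rw [Finset.card_univ, Fintype.card_finset, Fintype.card_fin] at hcard2
  exact hcard2

end Lower

end Pool.Agent.Y332.TG
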